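import Mathlib
import Pool.Agent.Q201.Henson

set_option autoImplicit false

/-!
# No Henson graph is sunflowerable

For every `n ≥ 3` the generic countable `K_n`-free graph is not sunflowerable, already for
vertices which are two-element sets.  The vertex `v` (a natural number) is replaced by the set
`{(0, m), (1, v)}` where `m` is the least neighbour of `v`.  A sunflower of vertices whose kernel
is `{(0, m)}` lies in the neighbourhood of `m`, which contains no `K_(n-1)`.  In a sunflower with
empty kernel the least neighbours `m` of its members are different, so a member `u` has only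
finitely many neighbours in the sunflower (their least neighbours are at most `u`).
-/

namespace Pool.Agent.Results.MP_ac8c78_lc.NotSunflowerable

/-- `G` is the countable generic `K_n`-free graph: it is countable, every isomorphism between
finite induced subgraphs extends to an automorphism, and its finite induced subgraphs are, up to
isomorphism, exactly the finite `K_n`-free graphs. -/
def IsHenson (n : ℕ) {V : Type} (G : SimpleGraph V) : Prop :=
  Countable V ∧
  (∀ S T : Set V, S.Finite → ∀ f : G.induce S ≃g G.induce T,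
    ∃ F : G ≃g G, ∀ x : S, F x = f x) ∧
  (∀ (m : ℕ) (H : SimpleGraph (Fin m)), Nonempty (H ↪g G) ↔ H.CliqueFree n)

/-- A family of sets is a sunflower if all intersections of two different members are equal. -/
def IsSunflower {α : Type} (Y : Set (Set α)) : Prop :=
  ∃ r : Set α, ∀ p ∈ Y, ∀ q ∈ Y, p ≠ q → p ∩ q = r

/-- The condition in the definition of a sunflowerable graph for vertices with `k` elements:
in every graph `G'` isomorphic to `G` whose vertex set `M` consists of `k`-element sets there is
a set `M₀` of vertices which is a sunflower and induces a copy of `G`. -/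
def SunflowerableAt (k : ℕ) {V : Type} (G : SimpleGraph V) : Prop :=
  ∀ (α : Type) (M : Set (Set α)) (G' : SimpleGraph M), (∀ p ∈ M, p.Finite ∧ p.ncard = k) →
    Nonempty (G' ≃g G) →
    ∃ M₀ : Set M, IsSunflower (Subtype.val '' M₀) ∧ Nonempty (G'.induce M₀ ≃g G)

/-- Sunflowerable graphs. -/
def Sunflowerable {V : Type} (G : SimpleGraph V) : Prop := ∀ k : ℕ, SunflowerableAt k G

theorem exists_henson (n : ℕ) (hn : 3 ≤ n) : ∃ G : SimpleGraph ℕ, IsHenson n G := by
  classical
  obtain ⟨n, rfl⟩ : ∃ k, n = k + 1 := ⟨n - 1, by omega⟩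
  have h1 : 1 ≤ n := by omega
  refine ⟨Q201.Hen.gr n, inferInstance, ?_, ?_⟩
  · intro S T hS f
    have : Fintype S := hS.fintype
    obtain ⟨F, hF⟩ := Q201.Hen.extend (Q201.Hen.gr_free n h1) (Q201.Hen.gr_ext n)
      (Q201.Hen.gr_free n h1) (Q201.Hen.gr_ext n)
      ((Finset.univ : Finset S).image (fun x : S => ((x : ℕ), ((f x : T) : ℕ)))) (by
        intro p hp q hq
        simp only [Finset.mem_image, Finset.mem_univ, true_and] at hp hq
        obtain ⟨x, rfl⟩ := hp
        obtain ⟨y, rfl⟩ := hq
        refine ⟨?_, ?_⟩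
        · simp only
          rw [← Subtype.ext_iff, ← Subtype.ext_iff]
          exact f.injective.eq_iff.symm
        · exact (f.map_adj_iff (v := x) (w := y)).symm)
    refine ⟨F, fun x => ?_⟩
    exact hF _ (Finset.mem_image.2 ⟨x, Finset.mem_univ _, rfl⟩)
  · intro m H
    constructor
    · rintro ⟨f⟩
      exact (Q201.Hen.gr_free n h1).comap ⟨f.toCopy⟩
    · intro h
      exact Q201.Hen.embed' h (Q201.Hen.gr_ext n)

/-- every vertex of a Henson graph has infinitely many neighbours -/
theorem infinite_nbhd {n : ℕ} (hn : 3 ≤ n) {V : Type} {G : SimpleGraph V} (hG : IsHenson n G)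
    (u : V) : {v | G.Adj u v}.Infinite := by
  classical
  obtain ⟨hc, hh, ha⟩ := hG
  intro hfin
  let m := hfin.toFinset.card
  -- a star with `m + 1` leaves
  let H : SimpleGraph (Fin (m + 2)) := SimpleGraph.mk (fun a b => (a = 0 ∧ b ≠ 0) ∨ (b = 0 ∧ a ≠ 0))
    ⟨fun a b h => h.symm⟩ ⟨fun a h => by simp at h⟩
  have hH : H.CliqueFree n := by
    refine SimpleGraph.CliqueFree.mono hn ?_
    intro s hs
    rw [SimpleGraph.is3Clique_iff] at hs
    obtain ⟨a, b, c, hab, hac, hbc, -⟩ := hs
    simp only [H] at hab hac hbc
    rcases hab with h | h <;> rcases hac with h' | h' <;> rcases hbc with h'' | h'' <;>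
      simp_all
  obtain ⟨f⟩ := (ha _ H).2 hH
  -- move `f 0` to `u`
  let g : G.induce {f 0} ≃g G.induce {u} :=
    { toFun := fun _ => ⟨u, rfl⟩
      invFun := fun _ => ⟨f 0, rfl⟩
      left_inv := fun x => by
        apply Subtype.ext
        exact x.2.symm
      right_inv := fun x => by
        apply Subtype.ext
        exact x.2.symm
      map_rel_iff' := by
        intro a b
        have ha : a = b := Subtype.ext (by rw [a.2, b.2])
        subst ha
        simp }
  obtain ⟨F, hF⟩ := hh {f 0} {u} (Set.finite_singleton _) g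
  have hF0 : F (f 0) = u := hF ⟨f 0, rfl⟩
  have hsub : (Finset.univ.image (fun i : Fin (m + 1) => F (f i.succ))) ⊆ hfin.toFinset := by
    intro v hv
    simp only [Finset.mem_image, Finset.mem_univ, true_and] at hv
    obtain ⟨i, rfl⟩ := hv
    rw [Set.Finite.mem_toFinset]
    change G.Adj u _
    rw [← hF0]
    rw [F.map_adj_iff, f.map_adj_iff]
    exact Or.inl ⟨rfl, Fin.succ_ne_zero i⟩
  have hcard := Finset.card_le_card hsub
  rw [Finset.card_image_of_injective] at hcard
  · simp only [Finset.card_univ, Fintype.card_fin] at hcard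
    have : hfin.toFinset.card = m := rfl
    omega
  · intro i j hij
    exact Fin.succ_injective _ (f.injective (F.injective hij))

theorem not_sunflowerableAt {n : ℕ} (hn : 3 ≤ n) {V : Type} {G : SimpleGraph V}
    (hG : IsHenson n G) : ¬ SunflowerableAt 2 G := by
  classical
  intro hsun
  have hinf := fun u => infinite_nbhd hn hG u
  obtain ⟨hc, hh, ha⟩ := id hG
  obtain ⟨idx, hidx⟩ := hc.exists_injective_nat
  have hex : ∀ v, ∃ k, ∃ u, G.Adj u v ∧ idx u = k := by
    intro v
    obtain ⟨u, hu⟩ := (hinf v).nonempty
    exact ⟨_, u, (G.adj_comm _ _).1 hu, rfl⟩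
  let m : V → ℕ := fun v => Nat.find (hex v)
  have hm : ∀ v, ∃ u, G.Adj u v ∧ idx u = m v := fun v => Nat.find_spec (hex v)
  have hmle : ∀ u v, G.Adj u v → m v ≤ idx u := fun u v h => Nat.find_min' (hex v) ⟨u, h, rfl⟩
  let p : V → Set (ℕ × ℕ) := fun v => {(0, m v), (1, idx v)}
  have hp1 : ∀ v k, ((1, k) : ℕ × ℕ) ∈ p v ↔ k = idx v := by
    intro v k
    simp [p]
  have hp0 : ∀ v k, ((0, k) : ℕ × ℕ) ∈ p v ↔ k = m v := by
    intro v k
    simp [p]
  have hp : Function.Injective p := by
    intro v w h
    apply hidx
    rw [← hp1 w, ← h, hp1]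
  let e : V ≃ Set.range p := Equiv.ofInjective p hp
  let G' : SimpleGraph (Set.range p) := G.comap e.symm
  let φ : G' ≃g G := { toEquiv := e.symm, map_rel_iff' := by intro a b; rfl }
  obtain ⟨M₀, ⟨r, hr⟩, ⟨ψ⟩⟩ := hsun (ℕ × ℕ) (Set.range p) G' (by
    rintro _ ⟨v, rfl⟩
    refine ⟨(Set.finite_singleton _).insert _, ?_⟩
    exact Set.ncard_pair (by simp)) ⟨φ⟩
  -- the vertices of the sunflower, seen in `G`
  let t : V → V := fun x => e.symm (ψ.symm x : M₀).1
  have ht : ∀ x y, G.Adj (t x) (t y) ↔ G.Adj x y := by
    intro x y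
    have h1 := ψ.symm.map_adj_iff (v := x) (w := y)
    rw [← h1]
    rfl
  have htinj : Function.Injective t := by
    intro x y h
    exact ψ.symm.injective (Subtype.ext (e.symm.injective h))
  have htr : ∀ x y, x ≠ y → p (t x) ∩ p (t y) = r := by
    intro x y hxy
    have h1 : ∀ x, p (t x) = ((ψ.symm x : M₀).1 : Set (ℕ × ℕ)) := by
      intro x
      have := congrArg Subtype.val (e.apply_symm_apply (ψ.symm x : M₀).1)
      exact this
    refine hr _ ?_ _ ?_ ?_
    · rw [h1]; exact ⟨_, (ψ.symm x).2, rfl⟩
    · rw [h1]; exact ⟨_, (ψ.symm y).2, rfl⟩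
    · intro h
      exact hxy (htinj (hp h))
  by_cases hk : ∃ k, ((0, k) : ℕ × ℕ) ∈ r
  · -- the kernel contains a label: the sunflower is in a neighbourhood
    obtain ⟨k, hk⟩ := hk
    have hmk : ∀ x, m (t x) = k := by
      intro x
      obtain ⟨y, hy⟩ := (hinf x).nonempty
      rw [← htr x y hy.ne] at hk
      exact ((hp0 _ _).1 hk.1).symm
    obtain ⟨x₀⟩ : Nonempty V := by
      obtain ⟨f⟩ := (ha 1 ⊥).2 (by
        intro s hs
        have := hs.card_eq
        have h2 := s.card_le_univ
        simp at h2
        omega)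
      exact ⟨f 0⟩
    obtain ⟨u, hu, huk⟩ := hm (t x₀)
    have hut : ∀ x, G.Adj u (t x) := by
      intro x
      obtain ⟨u', hu', hu'k⟩ := hm (t x)
      have : u' = u := hidx (by rw [hu'k, huk, hmk, hmk])
      rwa [this] at hu'
    -- a complete graph on `n - 1` vertices together with `u`
    obtain ⟨f⟩ := (ha (n - 1) ⊤).2 (by
      intro s hs
      have := hs.card_eq
      have h2 := s.card_le_univ
      simp at h2
      omega)
    have hfree : G.CliqueFree n := by
      intro s hs
      have h3 := (ha n ((⊤ : SimpleGraph (Fin n)))).1 (by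
        have := SimpleGraph.topEmbeddingOfNotCliqueFree (G := G) (n := n) (fun h => h s hs)
        exact ⟨this⟩)
      exact h3 Finset.univ ⟨by simp, by simp⟩
    refine hfree (insert u (Finset.univ.image (fun i => t (f i)))) ⟨?_, ?_⟩
    · rw [Finset.coe_insert, SimpleGraph.isClique_insert]
      refine ⟨?_, ?_⟩
      · intro x hx y hy hxy
        simp only [Finset.coe_image, Finset.coe_univ, Set.image_univ, Set.mem_range] at hx hy
        obtain ⟨i, rfl⟩ := hx
        obtain ⟨j, rfl⟩ := hy
        rw [ht, f.map_adj_iff]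
        intro hij
        exact hxy (by rw [hij])
      · intro b hb _
        simp only [Finset.coe_image, Finset.coe_univ, Set.image_univ, Set.mem_range] at hb
        obtain ⟨i, rfl⟩ := hb
        exact hut _
    · rw [Finset.card_insert_of_notMem, Finset.card_image_of_injective]
      · simp
        omega
      · intro i j hij
        exact f.injective (htinj hij)
      · intro h
        simp only [Finset.mem_image, Finset.mem_univ, true_and] at h
        obtain ⟨i, hi⟩ := h
        have := hut (f i)
        rw [hi] at this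
        exact G.loopless.irrefl _ this
  · -- the kernel contains no label: the least neighbours are different
    have hinj : Function.Injective (fun x => m (t x)) := by
      intro x y hxy
      by_contra hne
      apply hk
      refine ⟨m (t x), ?_⟩
      rw [← htr x y hne]
      refine ⟨(hp0 _ _).2 rfl, (hp0 _ _).2 hxy⟩
    obtain ⟨x₀⟩ : Nonempty V := by
      obtain ⟨f⟩ := (ha 1 ⊥).2 (by
        intro s hs
        have := hs.card_eq
        have h2 := s.card_le_univ
        simp at h2
        omega)
      exact ⟨f 0⟩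
    refine hinf x₀ ?_
    refine Set.Finite.of_finite_image (f := fun x => m (t x)) ?_ hinj.injOn
    refine (Set.finite_Iic (idx (t x₀))).subset ?_
    rintro _ ⟨y, hy, rfl⟩
    exact hmle _ _ ((ht x₀ y).2 hy)

/-- For every `n ≥ 3` the countable generic `K_n`-free graph exists and is not sunflowerable;
the condition fails already for vertices which are two-element sets. -/
theorem result (n : ℕ) (hn : 3 ≤ n) :
    (∃ G : SimpleGraph ℕ, IsHenson n G) ∧
    ∀ (V : Type) (G : SimpleGraph V), IsHenson n G →
      ¬ SunflowerableAt 2 G ∧ ¬ Sunflowerable G :=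
  ⟨exists_henson n hn, fun _ _ hG => ⟨not_sunflowerableAt hn hG,
    fun h => not_sunflowerableAt hn hG (h 2)⟩⟩

end Pool.Agent.Results.MP_ac8c78_lc.NotSunflowerable
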